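import Pool.Agent.Run7.h23.Bk.Bc
import Pool.Agent.TH954.SBir

/-!
# Artin twists of the rational Tate module
-/

set_option autoImplicit false
set_option linter.all false

open Polynomial IsDedekindDomain NumberField Topology
open scoped Classical

namespace Run7.h23.Bk

open Pool.Agent.N874.Jac (CoordRing coordMap J mapJ Gal TrivialOver UniquelyTwoDivisible
  ShaTwoTrivialReal)

section abs

variable {G A : Type} [Group G] [CommGroup A]

theorem abs_inf (α : G → A →* A) (hα1 : ∀ y, α 1 y = y) (hα : ∀ σ τ y, α (σ * τ) y = α σ (α τ y))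
    (H : Subgroup G) (hH : ∀ σ, ∀ h ∈ H, σ⁻¹ * h * σ ∈ H) (c : G → A)
    (hc : ∀ σ τ, c (σ * τ) = c σ * α σ (c τ)) (x : A) (hx : ∀ σ ∈ H, c σ = α σ x / x)
    (S : Subgroup A) (hS : ∀ y ∈ S, (∀ h ∈ H, α h y = y) → y = 1) (hcS : ∀ σ, c σ ∈ S)
    (hxS : x ∈ S) (hαS : ∀ σ, ∀ y ∈ S, α σ y ∈ S) (σ : G) : c σ = α σ x / x := by
  set d : G → A := fun σ => c σ * x / α σ x with hd
  have hd1 : ∀ σ τ, d (σ * τ) = d σ * α σ (d τ) := by
    intro σ τ
    simp only [hd]
    rw [hc, hα, _root_.map_div, _root_.map_mul]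
    have e : c σ * (α σ) (c τ) * x / (α σ) ((α τ) x) =
        c σ * x / (α σ) x * ((α σ) (c τ) * (α σ) x / (α σ) ((α τ) x)) := by
      rw [div_mul_div_comm, div_eq_div_iff_mul_eq_mul]
      simp only [mul_comm, mul_left_comm, mul_assoc]
    exact e
  have hd2 : ∀ h ∈ H, d h = 1 := by
    intro h hh
    simp only [hd]
    rw [hx h hh]
    simp
  have hd3 : ∀ h ∈ H, α h (d σ) = d σ := by
    intro h hh
    have h1 := hd1 h σ
    rw [hd2 h hh, one_mul] at h1
    have h2 := hd1 σ (σ⁻¹ * h * σ)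
    rw [hd2 _ (hH σ h hh), map_one, mul_one] at h2
    have h3 : σ * (σ⁻¹ * h * σ) = h * σ := by group
    rw [h3] at h2
    rw [← h1, h2]
  have h4 : d σ ∈ S := S.div_mem (S.mul_mem (hcS σ) hxS) (hαS σ x hxS)
  have h5 := hS _ h4 hd3
  simp only [hd] at h5
  rw [div_eq_one] at h5
  rw [eq_div_iff_mul_eq']
  exact h5

end abs

section tors

open Pool.Agent.Y160.SE
open Pool.Agent.TH115.GD (incl rs ak)
open Pool.Agent.N106.JB (ad mu ad_mapJ)

variable {K : Type} [Field K] {P : K[X]}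

/-- Invariant points of 2-power order are trivial. -/
theorem inv_tors (h2 : (2 : K) ≠ 0) (hm : P.Monic) (hs : P.Separable) (ho : Odd P.natDegree)
    (hU : UniquelyTwoDivisible P) (z : J P (SeparableClosure K))
    (hz : ∀ σ : Gal K, mapJ P σ.toAlgHom z = z) (m : ℕ) (hzm : z ^ 2 ^ m = 1) : z = 1 := by
  have hg := Pool.Agent.N106.JB.good2 h2 hm hs ho
  have hinj := Pool.Agent.N655.JB.inj K (SeparableClosure K) P hg
  set x : Jac 2 P (SeparableClosure K) := (ad (z : Pool.Agent.Y713.Jac.J 2 P _)) with hx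
  obtain ⟨y, hy⟩ := fixed_class (E := K) hyps hg x fun τ => by
    have e1 : (rs K τ : SeparableClosure K →ₐ[K] SeparableClosure K) = ak τ :=
      AlgHom.ext fun x => rfl
    rw [e1]
    refine (ad_mapJ (ak τ) (z : Pool.Agent.Y713.Jac.J 2 P _)).symm.trans ?_
    exact congrArg (fun w : Pool.Agent.Y713.Jac.J 2 P (SeparableClosure K) => ad w) (hz τ)
  have h1 : 2 ^ m • x = 0 := hzm
  have hU1 : ∀ Q : Jac 2 P K, 2 • Q = 0 → Q = 0 := by
    intro Q hQ
    have e : (fun P' : Pool.Agent.Y713.Jac.J 2 P K => P' ^ 2) (mu Q) =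
        (fun P' : Pool.Agent.Y713.Jac.J 2 P K => P' ^ 2) (mu (0 : Jac 2 P K)) := by
      show ad (mu Q ^ 2) = ad (mu (0 : Jac 2 P K) ^ 2)
      show 2 • Q = 2 • (0 : Jac 2 P K)
      rw [hQ, smul_zero]
    exact hU.1 e
  have h3 : ∀ m : ℕ, ∀ Q : Jac 2 P K, 2 ^ m • Q = 0 → Q = 0 := by
    intro m
    induction m with
    | zero => intro Q hQ; simpa using hQ
    | succ m ih =>
      intro Q hQ
      apply ih
      apply hU1
      rw [smul_smul, ← pow_succ']
      exact hQ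
  have h4 : y = 0 := by
    apply h3 m
    apply hinj
    rw [map_nsmul, hy, h1, map_zero]
  have h5 : x = 0 := by rw [← hy, h4, map_zero]
  exact h5

end tors

section restrict

variable {F K Ω : Type} [Field F] [Field K] [Field Ω] [Algebra F K] [Algebra K Ω] [Algebra F Ω]
  [IsScalarTower F K Ω]

/-- Restriction of scalars for automorphisms. -/
def rsE (σ : Ω ≃ₐ[K] Ω) : Ω ≃ₐ[F] Ω := σ.restrictScalars F

theorem rsE_cont [Algebra.IsAlgebraic K Ω] :
    Continuous (fun σ : Ω ≃ₐ[K] Ω => (rsE σ : Ω ≃ₐ[F] Ω)) := by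
  set φ : (Ω ≃ₐ[K] Ω) →* (Ω ≃ₐ[F] Ω) :=
    { toFun := rsE, map_one' := rfl, map_mul' := fun _ _ => rfl } with hφ
  have h : Continuous φ := by
    apply continuous_of_continuousAt_one
    intro U hU
    rw [map_one, krullTopology_mem_nhds_one_iff] at hU
    obtain ⟨E, hE, h⟩ := hU
    haveI : FiniteDimensional F E := hE
    set b := Module.finBasis F E with hb
    have h1 : ∀ᶠ g in 𝓝 (1 : Ω ≃ₐ[K] Ω), ∀ i, g ((b i : E) : Ω) = ((b i : E) : Ω) :=
      Filter.eventually_all.2 fun i => Pool.Agent.TH954.fix_nhds ((b i : E) : Ω)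
    rw [Filter.mem_map]
    filter_upwards [h1] with g hg
    apply h
    rw [SetLike.mem_coe, IntermediateField.mem_fixingSubgroup_iff]
    intro z hz
    have h2 : ((rsE g : Ω ≃ₐ[F] Ω).toAlgHom.toLinearMap).comp E.val.toLinearMap =
        E.val.toLinearMap := b.ext fun i => hg i
    exact LinearMap.congr_fun h2 ⟨z, hz⟩
  exact h

end restrict

section main

variable {F K : Type} [Field F] [Field K] [Algebra F K] (P : F[X])

section act

theorem prod_zpow_sum {A ι : Type} [CommGroup A] (a : A) (s : Finset ι) (f : ι → ℤ) :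
    ∏ i ∈ s, a ^ f i = a ^ ∑ i ∈ s, f i := by
  induction s using Finset.induction_on with
  | empty => simp
  | insert i s hi ih => rw [Finset.prod_insert hi, Finset.sum_insert hi, ih, zpow_add]

variable {Ω : Type} [Field Ω] [Algebra F Ω] {n : ℕ}

/-- The action on `J(Ω) ^ n` twisted by the integral representation `ρ`. -/
noncomputable def tw (ρ : (Ω ≃ₐ[F] Ω) →* Matrix (Fin n) (Fin n) ℤ) (σ : Ω ≃ₐ[F] Ω)
    (y : Fin n → J P Ω) : Fin n → J P Ω :=
  fun i => ∏ j, mapJ P σ.toAlgHom (y j) ^ (ρ σ i j)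

theorem mapJ_one (y : J P Ω) : mapJ P (1 : Ω ≃ₐ[F] Ω).toAlgHom y = y := by
  have h : coordMap P (1 : Ω ≃ₐ[F] Ω).toAlgHom = RingHom.id (CoordRing P Ω) := by
    refine ext_cr P (fun p => ?_) ?_
    · refine (cm_of P _ p).trans ?_
      have e : p.map (1 : Ω ≃ₐ[F] Ω).toAlgHom.toRingHom = p := Polynomial.map_id
      rw [e]
      rfl
    · exact cm_root P _
  show CommRing.Pic.mapRingHom (coordMap P _) y = y
  rw [h]
  exact CommRing.Pic.mapRingHom_id_apply

theorem mapJ_mul (σ τ : Ω ≃ₐ[F] Ω) (y : J P Ω) :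
    mapJ P (σ * τ).toAlgHom y = mapJ P σ.toAlgHom (mapJ P τ.toAlgHom y) := by
  have h : coordMap P (σ * τ).toAlgHom = (coordMap P σ.toAlgHom).comp (coordMap P τ.toAlgHom) := by
    refine ext_cr P (fun p => ?_) ?_
    · refine (cm_of P _ p).trans ?_
      refine Eq.symm ((congrArg (coordMap P σ.toAlgHom) (cm_of P _ p)).trans ?_)
      refine (cm_of P _ _).trans ?_
      rw [Polynomial.map_map]
      rfl
    · refine (cm_root P _).trans ?_
      exact ((congrArg (coordMap P σ.toAlgHom) (cm_root P τ.toAlgHom)).trans (cm_root P _)).symm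
  show CommRing.Pic.mapRingHom (coordMap P _) y =
    CommRing.Pic.mapRingHom (coordMap P _) (CommRing.Pic.mapRingHom (coordMap P _) y)
  rw [h, CommRing.Pic.mapRingHom_mapRingHom]

theorem tw_one (ρ : (Ω ≃ₐ[F] Ω) →* Matrix (Fin n) (Fin n) ℤ) {σ : Ω ≃ₐ[F] Ω} (h : ρ σ = 1)
    (y : Fin n → J P Ω) (i : Fin n) : tw P ρ σ y i = mapJ P σ.toAlgHom (y i) := by
  show ∏ j, mapJ P σ.toAlgHom (y j) ^ (ρ σ i j) = _
  rw [h, Finset.prod_eq_single i]
  · rw [Matrix.one_apply_eq, zpow_one]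
  · intro j _ hj
    rw [Matrix.one_apply_ne (Ne.symm hj), zpow_zero]
  · intro h
    exact absurd (Finset.mem_univ i) h

theorem tw_mul (ρ : (Ω ≃ₐ[F] Ω) →* Matrix (Fin n) (Fin n) ℤ) (σ τ : Ω ≃ₐ[F] Ω)
    (y : Fin n → J P Ω) : tw P ρ (σ * τ) y = tw P ρ σ (tw P ρ τ y) := by
  funext i
  show ∏ k, mapJ P (σ * τ).toAlgHom (y k) ^ (ρ (σ * τ) i k) =
    ∏ j, mapJ P σ.toAlgHom (∏ k, mapJ P τ.toAlgHom (y k) ^ (ρ τ j k)) ^ (ρ σ i j)
  have h1 : ∀ j, mapJ P σ.toAlgHom (∏ k, mapJ P τ.toAlgHom (y k) ^ (ρ τ j k)) ^ (ρ σ i j) =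
      ∏ k, mapJ P (σ * τ).toAlgHom (y k) ^ (ρ σ i j * ρ τ j k) := by
    intro j
    rw [map_prod, ← Finset.prod_zpow]
    refine Finset.prod_congr rfl fun k _ => ?_
    rw [map_zpow, ← mapJ_mul, ← zpow_mul, mul_comm]
  simp only [h1]
  rw [Finset.prod_comm]
  refine Finset.prod_congr rfl fun k _ => ?_
  rw [map_mul, Matrix.mul_apply]
  exact (prod_zpow_sum (mapJ P (σ * τ).toAlgHom (y k)) Finset.univ
    (fun j => ρ σ i j * ρ τ j k)).symm

/-- The action as homomorphisms. -/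
noncomputable def twH (ρ : (Ω ≃ₐ[F] Ω) →* Matrix (Fin n) (Fin n) ℤ) (σ : Ω ≃ₐ[F] Ω) :
    (Fin n → J P Ω) →* (Fin n → J P Ω) where
  toFun := tw P ρ σ
  map_one' := by
    funext i
    show ∏ j, mapJ P σ.toAlgHom 1 ^ (ρ σ i j) = 1
    simp
  map_mul' x y := by
    funext i
    show ∏ j, mapJ P σ.toAlgHom (x j * y j) ^ (ρ σ i j) =
      (∏ j, mapJ P σ.toAlgHom (x j) ^ (ρ σ i j)) * ∏ j, mapJ P σ.toAlgHom (y j) ^ (ρ σ i j)
    rw [← Finset.prod_mul_distrib]
    refine Finset.prod_congr rfl fun j _ => ?_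
    rw [map_mul, mul_zpow]

end act

section sub

/-- The elements of 2-power order. -/
def Tor (A : Type) [CommGroup A] : Subgroup A where
  carrier := {y | ∃ k : ℕ, y ^ 2 ^ k = 1}
  mul_mem' := fun {a b} ⟨k, hk⟩ ⟨l, hl⟩ => ⟨k + l, by
    rw [mul_pow, pow_add, pow_mul, hk, one_pow, one_mul, mul_comm (2 ^ k), pow_mul, hl,
      one_pow]⟩
  one_mem' := ⟨0, one_pow _⟩
  inv_mem' := fun {a} ⟨k, hk⟩ => ⟨k, by rw [inv_pow, hk, inv_one]⟩

theorem mem_Tor {A : Type} [CommGroup A] {y : A} : y ∈ Tor A ↔ ∃ k : ℕ, y ^ 2 ^ k = 1 := Iff.rfl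

theorem Tor_pi {A : Type} [CommGroup A] {n : ℕ} {y : Fin n → A}
    (hy : ∀ i, ∃ k : ℕ, y i ^ 2 ^ k = 1) : y ∈ Tor (Fin n → A) := by
  choose k hk using hy
  refine ⟨Finset.univ.sup k, ?_⟩
  funext i
  have h5 : k i ≤ Finset.univ.sup k := Finset.le_sup (Finset.mem_univ i)
  show y i ^ 2 ^ Finset.univ.sup k = 1
  obtain ⟨l, hl⟩ := Nat.exists_eq_add_of_le h5
  rw [hl, pow_add, pow_mul, hk, one_pow]

theorem Tor_map {A B : Type} [CommGroup A] [CommGroup B] (φ : A →* B) {y : A} (hy : y ∈ Tor A) :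
    φ y ∈ Tor B := by
  obtain ⟨k, hk⟩ := hy
  exact ⟨k, by rw [← _root_.map_pow, hk, _root_.map_one]⟩

variable (F K) in
/-- The automorphisms over `K`. -/
def HK (Ω : Type) [Field Ω] [Algebra F Ω] [Algebra K Ω] : Subgroup (Ω ≃ₐ[F] Ω) where
  carrier := {σ | ∀ z : K, σ (algebraMap K Ω z) = algebraMap K Ω z}
  mul_mem' := fun {a b} ha hb z => by
    show a (b _) = _
    rw [hb, ha]
  one_mem' := fun z => rfl
  inv_mem' := fun {a} ha z => by
    have h := ha z
    show a.symm _ = _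
    rw [AlgEquiv.symm_apply_eq, h]

theorem HK_normal {Ω : Type} [Field Ω] [Algebra F Ω] [Algebra K Ω] [IsScalarTower F K Ω]
    [Normal F K] (σ h : Ω ≃ₐ[F] Ω) (hh : h ∈ HK F K Ω) : σ⁻¹ * h * σ ∈ HK F K Ω := by
  intro z
  have h1 := AlgEquiv.restrictNormal_commutes σ K z
  show σ.symm (h (σ (algebraMap K Ω z))) = _
  rw [← h1, hh, h1, AlgEquiv.symm_apply_apply]

/-- An automorphism over `K`. -/
def toK {Ω : Type} [Field Ω] [Algebra F Ω] [Algebra K Ω] (h : Ω ≃ₐ[F] Ω)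
    (hh : h ∈ HK F K Ω) : Ω ≃ₐ[K] Ω :=
  AlgEquiv.ofRingEquiv (f := (h : Ω ≃+* Ω)) hh

theorem rsE_toK {Ω : Type} [Field Ω] [Algebra F Ω] [Algebra K Ω] [IsScalarTower F K Ω]
    (h : Ω ≃ₐ[F] Ω) (hh : h ∈ HK F K Ω) : rsE (toK h hh) = h := AlgEquiv.ext fun z => rfl

end sub

theorem bc_natE {Ω : Type} [Field Ω] [Algebra F Ω] [Algebra K Ω] [IsScalarTower F K Ω]
    (σ : Ω ≃ₐ[K] Ω) (y : J P Ω) : bc K P Ω (mapJ P (rsE σ : Ω ≃ₐ[F] Ω).toAlgHom y) =
      mapJ (P.map (algebraMap F K)) σ.toAlgHom (bc K P Ω y) := bc_nat K P σ.toAlgHom y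

section fin

variable [NumberField F] [NumberField K] [Normal F K]
  [Algebra F (SeparableClosure K)] [IsScalarTower F K (SeparableClosure K)] {n : ℕ}
  (ρ : (SeparableClosure K ≃ₐ[F] SeparableClosure K) →* Matrix (Fin n) (Fin n) ℤ)

theorem art_glue (hm : P.Monic) (ho : Odd P.natDegree)
    (hs : (P.map (algebraMap F K)).Separable)
    (hU : UniquelyTwoDivisible (P.map (algebraMap F K)))
    (hρ : ∀ σ ∈ HK F K (SeparableClosure K), ρ σ = 1)
    (c : (SeparableClosure K ≃ₐ[F] SeparableClosure K) → Fin n → J P (SeparableClosure K))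
    (h2 : ∀ σ i, ∃ k : ℕ, c σ i ^ 2 ^ k = 1)
    (h3 : ∀ σ τ, c (σ * τ) = c σ * twH P ρ σ (c τ))
    (x : Fin n → J (P.map (algebraMap F K)) (SeparableClosure K))
    (hx1 : ∀ i, ∃ k : ℕ, x i ^ 2 ^ k = 1)
    (hx2 : ∀ (σ : Gal K) i, bc K P (SeparableClosure K) (c (rsE σ) i) =
        mapJ (P.map (algebraMap F K)) σ.toAlgHom (x i) / x i) (σ) :
    c σ = twH P ρ σ (fun i => bc' K P (SeparableClosure K) (x i)) /
      fun i => bc' K P (SeparableClosure K) (x i) := by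
  have hmK : (P.map (algebraMap F K)).Monic := hm.map _
  have hoK : Odd (P.map (algebraMap F K)).natDegree := by rw [hm.natDegree_map]; exact ho
  refine abs_inf (fun σ => twH P ρ σ) (fun y => ?_) (fun σ τ y => tw_mul P ρ σ τ y)
    (HK F K (SeparableClosure K)) (fun σ h hh => HK_normal σ h hh) c h3 _ (fun σ hσ => ?_)
    (Tor (Fin n → J P (SeparableClosure K))) (fun y hy hyH => ?_) (fun σ => Tor_pi (h2 σ))
    (Tor_pi fun i => Tor_map (bc' K P (SeparableClosure K)) (hx1 i))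
    (fun σ y hy => Tor_map (twH P ρ σ) hy) σ
  · funext i
    exact (tw_one P ρ (_root_.map_one ρ) y i).trans (mapJ_one P _)
  · funext i
    have h5 := hx2 (toK σ hσ) i
    rw [rsE_toK] at h5
    have h6 := congrArg (bc' K P (SeparableClosure K)) h5
    rw [bc'_bc, _root_.map_div] at h6
    refine h6.trans ?_
    show _ = twH P ρ σ (fun i => bc' K P (SeparableClosure K) (x i)) i /
      bc' K P (SeparableClosure K) (x i)
    congr 1
    refine Eq.trans ?_ (tw_one P ρ (hρ σ hσ) _ i).symm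
    exact bc'_nat K P (toK σ hσ).toAlgHom (x i)
  · obtain ⟨k, hk⟩ := hy
    funext i
    have h7 : bc K P (SeparableClosure K) (y i) = 1 := by
      refine inv_tors two_ne_zero hmK hs hoK hU _ (fun τ => ?_) k ?_
      · have hτ : rsE τ ∈ HK F K (SeparableClosure K) := fun z => τ.commutes z
        have h8 := congrFun (hyH _ hτ) i
        have h9 : twH P ρ (rsE τ) y i = mapJ P (rsE τ).toAlgHom (y i) :=
          tw_one P ρ (hρ _ hτ) y i
        rw [h9] at h8
        have h10 := bc_nat K P τ.toAlgHom (y i)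
        rw [← h10]
        exact congrArg (bc K P (SeparableClosure K)) h8
      · rw [← _root_.map_pow]
        have h8 := congrFun hk i
        rw [show y i ^ 2 ^ k = 1 from h8, _root_.map_one]
    have h8 := congrArg (bc' K P (SeparableClosure K)) h7
    rw [bc'_bc, _root_.map_one] at h8
    exact h8

/-- The Bloch-Kato Selmer groups of the Artin twists vanish. -/
theorem art_zero (hm : P.Monic) (ho : Odd P.natDegree)
    (hs : (P.map (algebraMap F K)).Separable)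
    (hU : UniquelyTwoDivisible (P.map (algebraMap F K)))
    (hS : ShaTwoTrivialReal (P.map (algebraMap F K)) (𝓞 K))
    (hρ : ∀ σ : SeparableClosure K ≃ₐ[F] SeparableClosure K,
      (∀ z : K, σ (algebraMap K _ z) = algebraMap K _ z) → ρ σ = 1)
    (c : (SeparableClosure K ≃ₐ[F] SeparableClosure K) → Fin n → ℕ → J P (SeparableClosure K))
    (h1 : ∀ i m, IsLocallyConstant fun σ => c σ i m)
    (h2 : ∀ σ i m, c σ i (m + 1) ^ 2 = c σ i m ∧ ∃ k : ℕ, c σ i m ^ 2 ^ k = 1)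
    (h3 : ∀ σ τ i m, c (σ * τ) i m =
      c σ i m * ∏ j, mapJ P σ.toAlgHom (c τ j m) ^ (ρ σ i j))
    (h4 : ∀ (w : HeightOneSpectrum (𝓞 K)) i m, TrivialOver (w.adicCompletion K)
      fun σ : Gal K => bc K P (SeparableClosure K) (c (rsE σ) i m)) :
    ∃ x : Fin n → ℕ → J P (SeparableClosure K),
      (∀ i m, x i (m + 1) ^ 2 = x i m ∧ ∃ k : ℕ, x i m ^ 2 ^ k = 1) ∧
      ∀ σ i m, c σ i m = (∏ j, mapJ P σ.toAlgHom (x j m) ^ (ρ σ i j)) / x i m := by
  have hmK : (P.map (algebraMap F K)).Monic := hm.map _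
  have hoK : Odd (P.map (algebraMap F K)).natDegree := by rw [hm.natDegree_map]; exact ho
  have hρK : ∀ σ : Gal K, ρ (rsE σ) = 1 := fun σ => hρ _ fun z => σ.commutes z
  have key : ∀ i, ∃ x : ℕ → J (P.map (algebraMap F K)) (SeparableClosure K),
      (∀ m, x (m + 1) ^ 2 = x m ∧ ∃ k : ℕ, x m ^ 2 ^ k = 1) ∧
      ∀ (σ : Gal K) m, bc K P (SeparableClosure K) (c (rsE σ) i m) =
        mapJ (P.map (algebraMap F K)) σ.toAlgHom (x m) / x m := by
    intro i
    refine Pool.Agent.N844.QF.h1f_zero (F := P.map (algebraMap F K)) two_ne_zero hmK hs hoK (𝓞 K)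
      hU hS (fun σ m => bc K P (SeparableClosure K) (c (rsE σ) i m)) (fun m => ?_) (fun σ m => ?_)
      (fun σ τ m => ?_) (fun w m => h4 w i m)
    · exact ((h1 i m).comp_continuous rsE_cont).comp _
    · obtain ⟨h5, k, h6⟩ := h2 (rsE σ) i m
      exact ⟨by rw [← _root_.map_pow, h5], k, by rw [← _root_.map_pow, h6, _root_.map_one]⟩
    · have h5 := h3 (rsE σ) (rsE τ) i m
      have h6 : (∏ j, mapJ P (rsE σ : SeparableClosure K ≃ₐ[F] SeparableClosure K).toAlgHom
          (c (rsE τ) j m) ^ (ρ (rsE σ) i j)) = mapJ P (rsE σ :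
            SeparableClosure K ≃ₐ[F] SeparableClosure K).toAlgHom (c (rsE τ) i m) :=
        tw_one P ρ (hρK σ) (fun j => c (rsE τ) j m) i
      rw [h6] at h5
      have h7 := congrArg (bc K P (SeparableClosure K)) h5
      rw [_root_.map_mul, bc_natE] at h7
      exact h7
  choose x hx1 hx2 using key
  refine ⟨fun i m => bc' K P (SeparableClosure K) (x i m), fun i m => ?_, fun σ i m => ?_⟩
  · obtain ⟨h5, k, h6⟩ := hx1 i m
    exact ⟨by rw [← _root_.map_pow, h5], k, by rw [← _root_.map_pow, h6, _root_.map_one]⟩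
  · have h5 := art_glue P ρ hm ho hs hU hρ (fun σ i => c σ i m) (fun σ i => (h2 σ i m).2)
      (fun σ τ => funext fun i => h3 σ τ i m) (fun i => x i m) (fun i => (hx1 i m).2)
      (fun σ i => hx2 i σ m) σ
    exact congrFun h5 i

end fin

end main

end Run7.h23.Bk
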