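import Pool.Agent.N844.QF.Hf

/-!
# Change of the base field for the groups `J(L)`
-/

set_option autoImplicit false
set_option linter.all false

open Polynomial IsDedekindDomain

namespace Run7.h23.Bk

open Pool.Agent.N874.Jac (CoordRing coordMap J mapJ)

section bc

variable {F : Type} (K : Type) [Field F] [Field K] [Algebra F K] (P : F[X])

theorem map_eq (L : Type) [Field L] [Algebra F L] [Algebra K L] [IsScalarTower F K L] :
    P.map (algebraMap F L) = (P.map (algebraMap F K)).map (algebraMap K L) := by
  rw [Polynomial.map_map, ← IsScalarTower.algebraMap_eq]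

/-- The identity of the coordinate rings. -/
noncomputable def bcR (L : Type) [Field L] [Algebra F L] [Algebra K L] [IsScalarTower F K L] :
    CoordRing P L →+* CoordRing (P.map (algebraMap F K)) L :=
  AdjoinRoot.map (RingHom.id L[X]) _ _ (by rw [Polynomial.map_id, map_eq K P L])

noncomputable def bcR' (L : Type) [Field L] [Algebra F L] [Algebra K L] [IsScalarTower F K L] :
    CoordRing (P.map (algebraMap F K)) L →+* CoordRing P L :=
  AdjoinRoot.map (RingHom.id L[X]) _ _ (by rw [Polynomial.map_id, map_eq K P L])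

theorem bcR_of (L : Type) [Field L] [Algebra F L] [Algebra K L] [IsScalarTower F K L] (p : L[X]) :
    bcR K P L (AdjoinRoot.of _ p) = AdjoinRoot.of _ p := AdjoinRoot.map_of _ _ _ _ _

theorem bcR_root (L : Type) [Field L] [Algebra F L] [Algebra K L] [IsScalarTower F K L] :
    bcR K P L (AdjoinRoot.root _) = AdjoinRoot.root _ := AdjoinRoot.map_root _ _ _ _

theorem bcR'_of (L : Type) [Field L] [Algebra F L] [Algebra K L] [IsScalarTower F K L] (p : L[X]) :
    bcR' K P L (AdjoinRoot.of _ p) = AdjoinRoot.of _ p := AdjoinRoot.map_of _ _ _ _ _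

theorem bcR'_root (L : Type) [Field L] [Algebra F L] [Algebra K L] [IsScalarTower F K L] :
    bcR' K P L (AdjoinRoot.root _) = AdjoinRoot.root _ := AdjoinRoot.map_root _ _ _ _

omit [Field K] [Algebra F K] in
theorem cm_of {L L' : Type} [Field L] [Algebra F L] [Field L'] [Algebra F L'] (φ : L →ₐ[F] L')
    (p : L[X]) : coordMap P φ (AdjoinRoot.of _ p) = AdjoinRoot.of _ (p.map φ.toRingHom) :=
  AdjoinRoot.map_of _ _ _ _ _

omit [Field K] [Algebra F K] in
theorem cm_root {L L' : Type} [Field L] [Algebra F L] [Field L'] [Algebra F L'] (φ : L →ₐ[F] L') :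
    coordMap P φ (AdjoinRoot.root _) = AdjoinRoot.root _ :=
  AdjoinRoot.map_root _ _ _ _

omit [Field K] [Algebra F K] in
theorem ext_cr {L : Type} [Field L] [Algebra F L] {S : Type} [CommRing S]
    {a b : CoordRing P L →+* S}
    (h1 : ∀ p : L[X], a (AdjoinRoot.of _ p) = b (AdjoinRoot.of _ p))
    (h2 : a (AdjoinRoot.root _) = b (AdjoinRoot.root _)) : a = b := by
  refine Ideal.Quotient.ringHom_ext (Polynomial.ringHom_ext h1 h2)

theorem bcR_bcR' (L : Type) [Field L] [Algebra F L] [Algebra K L] [IsScalarTower F K L] :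
    (bcR K P L).comp (bcR' K P L) = RingHom.id (CoordRing (P.map (algebraMap F K)) L) := by
  refine ext_cr _ (fun p => ?_) ?_
  · exact (congrArg (bcR K P L) (bcR'_of K P L p)).trans (bcR_of K P L p)
  · exact (congrArg (bcR K P L) (bcR'_root K P L)).trans (bcR_root K P L)

theorem bcR'_bcR (L : Type) [Field L] [Algebra F L] [Algebra K L] [IsScalarTower F K L] :
    (bcR' K P L).comp (bcR K P L) = RingHom.id (CoordRing P L) := by
  refine ext_cr _ (fun p => ?_) ?_
  · exact (congrArg (bcR' K P L) (bcR_of K P L p)).trans (bcR'_of K P L p)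
  · exact (congrArg (bcR' K P L) (bcR_root K P L)).trans (bcR'_root K P L)

theorem nat_ring {L L' : Type} [Field L] [Algebra F L] [Algebra K L] [IsScalarTower F K L]
    [Field L'] [Algebra F L'] [Algebra K L'] [IsScalarTower F K L'] (φ : L →ₐ[K] L') :
    (bcR K P L').comp (coordMap P (φ.restrictScalars F)) =
      (coordMap (P.map (algebraMap F K)) φ).comp (bcR K P L) := by
  refine ext_cr _ (fun p => ?_) ?_
  · refine (congrArg (bcR K P L') (cm_of P (φ.restrictScalars F) p)).trans ?_
    refine (bcR_of K P L' _).trans ?_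
    exact ((congrArg (coordMap (P.map (algebraMap F K)) φ) (bcR_of K P L p)).trans
      (cm_of _ φ p)).symm
  · refine (congrArg (bcR K P L') (cm_root P (φ.restrictScalars F))).trans ?_
    refine (bcR_root K P L').trans ?_
    exact ((congrArg (coordMap (P.map (algebraMap F K)) φ) (bcR_root K P L)).trans
      (cm_root _ φ)).symm

/-- The identity `J(L) = J(L)`. -/
noncomputable def bc (L : Type) [Field L] [Algebra F L] [Algebra K L] [IsScalarTower F K L] :
    J P L →* J (P.map (algebraMap F K)) L := CommRing.Pic.mapRingHom (bcR K P L)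

noncomputable def bc' (L : Type) [Field L] [Algebra F L] [Algebra K L] [IsScalarTower F K L] :
    J (P.map (algebraMap F K)) L →* J P L := CommRing.Pic.mapRingHom (bcR' K P L)

theorem bc_bc' {L : Type} [Field L] [Algebra F L] [Algebra K L] [IsScalarTower F K L]
    (x : J (P.map (algebraMap F K)) L) : bc K P L (bc' K P L x) = x := by
  show CommRing.Pic.mapRingHom (bcR K P L) (CommRing.Pic.mapRingHom (bcR' K P L) x) = x
  rw [CommRing.Pic.mapRingHom_mapRingHom, bcR_bcR']
  exact CommRing.Pic.mapRingHom_id_apply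

theorem bc'_bc {L : Type} [Field L] [Algebra F L] [Algebra K L] [IsScalarTower F K L]
    (x : J P L) : bc' K P L (bc K P L x) = x := by
  show CommRing.Pic.mapRingHom (bcR' K P L) (CommRing.Pic.mapRingHom (bcR K P L) x) = x
  rw [CommRing.Pic.mapRingHom_mapRingHom, bcR'_bcR]
  exact CommRing.Pic.mapRingHom_id_apply

theorem bc_nat {L L' : Type} [Field L] [Algebra F L] [Algebra K L] [IsScalarTower F K L]
    [Field L'] [Algebra F L'] [Algebra K L'] [IsScalarTower F K L'] (φ : L →ₐ[K] L') (x : J P L) :
    bc K P L' (mapJ P (φ.restrictScalars F) x) =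
      mapJ (P.map (algebraMap F K)) φ (bc K P L x) := by
  show CommRing.Pic.mapRingHom (bcR K P L') (CommRing.Pic.mapRingHom (coordMap P _) x) =
    CommRing.Pic.mapRingHom (coordMap _ φ) (CommRing.Pic.mapRingHom (bcR K P L) x)
  rw [CommRing.Pic.mapRingHom_mapRingHom, CommRing.Pic.mapRingHom_mapRingHom, nat_ring]

theorem bc'_nat {L L' : Type} [Field L] [Algebra F L] [Algebra K L] [IsScalarTower F K L]
    [Field L'] [Algebra F L'] [Algebra K L'] [IsScalarTower F K L'] (φ : L →ₐ[K] L')
    (x : J (P.map (algebraMap F K)) L) :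
    bc' K P L' (mapJ (P.map (algebraMap F K)) φ x) = mapJ P (φ.restrictScalars F) (bc' K P L x) := by
  rw [← bc'_bc K P (mapJ P (φ.restrictScalars F) (bc' K P L x)), bc_nat, bc_bc']

end bc

end Run7.h23.Bk
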